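import Pool.Agent.W209.KT.Stm

/-! Project KT (owner helper209): returns of the line of slope the square root of two. -/

set_option autoImplicit false

namespace Pool.Agent.W351.KT

open Pool.Agent.W209.KT

theorem sep (d : ℤ) (hd : d ≠ 0) (n : ℤ) : 1 ≤ |Real.sqrt 2 * d - n| * (4 * |(d : ℝ)|) := by
  have hirr : Irrational (Real.sqrt 2 * d) := irrational_sqrt_two.mul_intCast hd
  have h1 : Real.sqrt 2 * d - n ≠ 0 := sub_ne_zero.2 (hirr.ne_int n)
  have h2 : Real.sqrt 2 * d + n ≠ 0 := by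
    intro h
    have := hirr.ne_int (-n)
    push_cast at this
    apply this
    linarith
  have hs2 : Real.sqrt 2 * Real.sqrt 2 = 2 := Real.mul_self_sqrt (by norm_num)
  have hs0 : 0 ≤ Real.sqrt 2 := Real.sqrt_nonneg 2
  have hs3 : Real.sqrt 2 ≤ 3 / 2 := by
    rw [Real.sqrt_le_left (by norm_num)]
    norm_num
  have h3 : (Real.sqrt 2 * d - n) * (Real.sqrt 2 * d + n) = ((2 * d ^ 2 - n ^ 2 : ℤ) : ℝ) := by
    push_cast
    linear_combination (d : ℝ) ^ 2 * hs2
  have h4 : (2 * d ^ 2 - n ^ 2 : ℤ) ≠ 0 := by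
    intro h
    rw [h, Int.cast_zero] at h3
    rcases mul_eq_zero.1 h3 with h | h
    · exact h1 h
    · exact h2 h
  have h5 : (1 : ℝ) ≤ |Real.sqrt 2 * d - n| * |Real.sqrt 2 * d + n| := by
    rw [← abs_mul, h3]
    have : (1 : ℤ) ≤ |2 * d ^ 2 - n ^ 2| := Int.one_le_abs h4
    exact_mod_cast this
  have hd1 : (1 : ℝ) ≤ |(d : ℝ)| := by
    have : (1 : ℤ) ≤ |d| := Int.one_le_abs hd
    exact_mod_cast this
  by_cases ha : |Real.sqrt 2 * d - n| ≤ 1
  · have h6 : |Real.sqrt 2 * d + n| ≤ 4 * |(d : ℝ)| := by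
      have e1 : Real.sqrt 2 * d + n = 2 * (Real.sqrt 2 * d) - (Real.sqrt 2 * d - n) := by ring
      rw [e1]
      refine (abs_sub _ _).trans ?_
      rw [abs_mul, abs_mul, abs_of_nonneg hs0, abs_of_pos (by norm_num : (0 : ℝ) < 2)]
      nlinarith
    calc (1 : ℝ) ≤ |Real.sqrt 2 * d - n| * |Real.sqrt 2 * d + n| := h5
      _ ≤ _ := mul_le_mul_of_nonneg_left h6 (abs_nonneg _)
  · rw [not_le] at ha
    nlinarith

theorem sq : S_sq := by
  refine ⟨20, by norm_num, fun T ε hε => ?_⟩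
  have hT0 : (0 : ℝ) ≤ T := Nat.cast_nonneg T
  by_cases h : ε * (4 * T) < 1
  · have hsub : ({m : ℤ | |m| ≤ (T : ℤ) ∧ nrm (Real.sqrt 2 * m) ≤ ε} : Set ℤ) ⊆ {0} := by
      rintro m ⟨hm1, hm2⟩
      by_contra hm
      have hm0 : m ≠ 0 := hm
      have h1 := sep m hm0 (round (Real.sqrt 2 * m))
      have hm1' : |(m : ℝ)| ≤ T := by exact_mod_cast hm1
      have h2 : |Real.sqrt 2 * m - round (Real.sqrt 2 * m)| ≤ ε := hm2
      have h3 : |Real.sqrt 2 * m - round (Real.sqrt 2 * m)| * (4 * |(m : ℝ)|) ≤ ε * (4 * T) :=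
        mul_le_mul h2 (by linarith) (by positivity) hε.le
      linarith
    have h1 := Set.ncard_le_ncard hsub (Set.finite_singleton 0)
    rw [Set.ncard_singleton] at h1
    have h2 : (({m : ℤ | |m| ≤ (T : ℤ) ∧ nrm (Real.sqrt 2 * m) ≤ ε} : Set ℤ).ncard : ℝ) ≤ 1 := by
      exact_mod_cast h1
    have h3 : 0 ≤ 20 * (T : ℝ) * ε := by positivity
    linarith
  · rw [not_lt] at h
    have hTpos : (0 : ℝ) < T := by
      rcases hT0.lt_or_eq with h' | h'
      · exact h'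
      · rw [← h'] at h
        norm_num at h
    set f : ℤ → ℤ := fun m => ⌊(Real.sqrt 2 * m - round (Real.sqrt 2 * m)) * (8 * T)⌋ with hf
    set a : ℤ := ⌊-(8 * T * ε)⌋ with ha
    set b : ℤ := ⌊8 * T * ε⌋ with hb
    have hmaps : ∀ m ∈ ({m : ℤ | |m| ≤ (T : ℤ) ∧ nrm (Real.sqrt 2 * m) ≤ ε} : Set ℤ),
        f m ∈ ((Finset.Icc a b : Finset ℤ) : Set ℤ) := by
      rintro m ⟨-, hm2⟩
      have h2 : |Real.sqrt 2 * m - round (Real.sqrt 2 * m)| ≤ ε := hm2
      rw [abs_le] at h2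
      rw [Finset.mem_coe, Finset.mem_Icc]
      constructor
      · refine Int.floor_mono ?_
        nlinarith [h2.1]
      · refine Int.floor_mono ?_
        nlinarith [h2.2]
    have hinj : Set.InjOn f ({m : ℤ | |m| ≤ (T : ℤ) ∧ nrm (Real.sqrt 2 * m) ≤ ε} : Set ℤ) := by
      rintro m ⟨hm1, -⟩ m' ⟨hm1', -⟩ hmm
      by_contra hne
      have h1 := Int.abs_sub_lt_one_of_floor_eq_floor hmm
      have h2 := sep (m - m') (sub_ne_zero.2 hne)
        (round (Real.sqrt 2 * m) - round (Real.sqrt 2 * m'))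
      have e1 : (Real.sqrt 2 * m - round (Real.sqrt 2 * m)) * (8 * T) -
          (Real.sqrt 2 * m' - round (Real.sqrt 2 * m')) * (8 * T) =
          (Real.sqrt 2 * ((m - m' : ℤ) : ℝ) -
            ((round (Real.sqrt 2 * m) - round (Real.sqrt 2 * m') : ℤ) : ℝ)) * (8 * T) := by
        push_cast
        ring
      rw [e1, abs_mul, abs_of_pos (by positivity : (0 : ℝ) < 8 * T)] at h1
      have h3 : |((m - m' : ℤ) : ℝ)| ≤ 2 * T := by
        have e2 : |(m : ℝ)| ≤ T := by exact_mod_cast hm1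
        have e3 : |(m' : ℝ)| ≤ T := by exact_mod_cast hm1'
        push_cast
        refine (abs_sub _ _).trans ?_
        linarith
      have h4 : |Real.sqrt 2 * ((m - m' : ℤ) : ℝ) -
            ((round (Real.sqrt 2 * m) - round (Real.sqrt 2 * m') : ℤ) : ℝ)| *
            (4 * |((m - m' : ℤ) : ℝ)|) ≤ |Real.sqrt 2 * ((m - m' : ℤ) : ℝ) -
            ((round (Real.sqrt 2 * m) - round (Real.sqrt 2 * m') : ℤ) : ℝ)| * (8 * T) :=
        mul_le_mul_of_nonneg_left (by linarith) (abs_nonneg _)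
      linarith
    have h1 := Set.ncard_le_ncard_of_injOn f hmaps hinj (Finset.finite_toSet _)
    rw [Set.ncard_coe_finset, Int.card_Icc] at h1
    have hab : a ≤ b := Int.floor_mono (by nlinarith)
    have h2 : (((b + 1 - a).toNat : ℕ) : ℝ) = b + 1 - a := by
      have : (((b + 1 - a).toNat : ℕ) : ℤ) = b + 1 - a := Int.toNat_of_nonneg (by omega)
      exact_mod_cast congrArg (fun z : ℤ => (z : ℝ)) this
    have h3 : (({m : ℤ | |m| ≤ (T : ℤ) ∧ nrm (Real.sqrt 2 * m) ≤ ε} : Set ℤ).ncard : ℝ) ≤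
        b + 1 - a := by
      rw [← h2]
      exact_mod_cast h1
    have h4 : (b : ℝ) ≤ 8 * T * ε := Int.floor_le _
    have h5 : -(8 * T * ε) - 1 < (a : ℝ) := Int.sub_one_lt_floor _
    nlinarith

end Pool.Agent.W351.KT
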